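import Pool.Agent.Helper28.OHS.Goals

/-!
# Packet OHS-CMP: completeness of the machine on numbers, with the number of changes
-/

namespace Pool.Agent.Helper90.OHS

open Pool.Agent.Helper65.LinSpace Pool.Agent.Helper78.Mpc Pool.Agent.Helper28.Ram Finset
open Pool.Agent.Helper65.OH Pool.Agent.Helper53.OH
open Pool.Agent.Helper94.OH2 (QQ QQ_le chs_succ_le chs_succ_of_not)
open Pool.Agent.Helper28.Few (chg chs Absorb cf_succ keep mem_of_not_chg)
open Pool.Agent.Helper28.OHS

theorem capN_eq {V x : ℕ} (h : x < 2 ^ (V + 1)) : capN V x = x := by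
  unfold capN
  have h1 : ¬V < Nat.log 2 x := by
    intro h2
    rcases Nat.eq_zero_or_pos x with h0 | h0
    · rw [h0] at h2
      simp at h2
    · have h3 := Nat.pow_log_le_self 2 h0.ne'
      have h4 : 2 ^ (V + 1) ≤ 2 ^ Nat.log 2 x := Nat.pow_le_pow_right (by norm_num) h2
      omega
  rw [lt01, if_neg h1, ifz_zero]

variable {D : ℕ} {A : OneHead D} {eA eN eW c₀ : ℕ} {w y : List Bool}
  {m : Pool.Agent.Helper65.OH.Prm} {e : Pool.Agent.Helper81.Sus2.Prm}

theorem act_le (b z : ℕ) : act m b z ≤ 1 := by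
  have h1 : eq01 (m.blk (z % 2 ^ m.sg)) b ≤ 1 := by
    unfold eq01
    split_ifs <;> omega
  have h2 : 1 - accN (m.wq (z % 2 ^ m.sg)) ≤ 1 := Nat.sub_le _ _
  calc act m b z ≤ 1 * 1 := Nat.mul_le_mul h1 h2
    _ = 1 := rfl

theorem ct_le (b z n : ℕ) : ct m b z n ≤ n := by
  unfold ct
  calc ∑ j ∈ range n, act m b (rn m b z j) ≤ ∑ j ∈ range n, 1 := sum_le_sum fun _ _ => act_le _ _
    _ = n := by simp

theorem dq_enc {q t : ℕ} (hq : q < 2 ^ m.sg) : dq m (enc m q t) = q := by
  unfold dq enc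
  rw [Nat.add_sub_cancel_left]
  exact (split_lt hq).1

theorem dt_enc {q t : ℕ} (hq : q < 2 ^ m.sg) : dt m (enc m q t) = t := by
  unfold dt enc
  rw [Nat.add_sub_cancel_left]
  exact (split_lt hq).2

theorem lt_enc (q t : ℕ) : lt01 1 (enc m q t) = 1 := by
  unfold enc
  rw [lt01, if_pos (by omega)]

theorem enc_lt {q t τ V : ℕ} (hq : q < 2 ^ m.sg) (ht : t ≤ τ)
    (h : 2 + 2 ^ m.sg * (τ + 1) ≤ 2 ^ (V + 1)) : enc m q t < 2 ^ (V + 1) := by
  unfold enc
  have h1 : 2 ^ m.sg * t + 2 ^ m.sg ≤ 2 ^ m.sg * (τ + 1) := by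
    rw [← Nat.mul_succ]
    exact Nat.mul_le_mul_left _ (by omega)
  omega

/-! ### The memory is bounded -/

theorem mem_lt (c τ d a T : ℕ) : ∀ b, (wf m e τ c d a T).2 b < 2 ^ m.a := by
  induction T with
  | zero => exact fun b => Nat.mod_lt _ (by positivity)
  | succ T ih =>
    intro b
    have h2 : (wf m e τ c d a (T + 1)).2 =
        Function.update (wf m e τ c d a T).2 (wA m e τ a (wf m e τ c d a T).1)
          (wW m τ (wf m e τ c d a T).1
            ((wf m e τ c d a T).2 (wA m e τ a (wf m e τ c d a T).1))) := rfl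
    rw [h2]
    by_cases h : b = wA m e τ a (wf m e τ c d a T).1
    · rw [h, Function.update_self]
      exact Nat.mod_lt _ (by positivity)
    · rw [Function.update_of_ne h]
      exact ih b

theorem absorb (c τ d a : ℕ) :
    Absorb (wA m e τ a) (wN m e τ d a) (wW m τ) (w0 m e c) (cm m e c) (fun Q => Q = 1) := by
  intro T hT
  change wf m e τ c d a (T + 1) = wf m e τ c d a T
  change (wf m e τ c d a T).1 = 1 at hT
  have h1 := mem_lt (m := m) (e := e) c τ d a T
  have h2 : wf m e τ c d a (T + 1) =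
      (wN m e τ d a (wf m e τ c d a T).1
        ((wf m e τ c d a T).2 (wA m e τ a (wf m e τ c d a T).1)),
      Function.update (wf m e τ c d a T).2 (wA m e τ a (wf m e τ c d a T).1)
        (wW m τ (wf m e τ c d a T).1
          ((wf m e τ c d a T).2 (wA m e τ a (wf m e τ c d a T).1)))) := rfl
  rw [h2, hT]
  have h3 : lt01 1 1 = 0 := rfl
  have h4 : ∀ v, wN m e τ d a 1 v = 1 := by
    intro v
    unfold wN
    rw [h3, ifz_zero]
    exact capN_eq (Nat.one_lt_two_pow (by omega))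
  have h5 : ∀ v, wW m τ 1 v = v % 2 ^ m.a := by
    intro v
    unfold wW
    rw [h3, ifz_zero]
  rw [h4, h5, Nat.mod_eq_of_lt (h1 _), Function.update_eq_self]
  exact Prod.ext hT.symm rfl

/-! ### The counts -/

theorem crs_mono {t₀ s t : ℕ} (h : s ≤ t) : crs A w y m t₀ s ≤ crs A w y m t₀ t := by
  classical
  exact card_le_card (filter_subset_filter _ (range_mono h))

theorem ncr_mono {t₀ s t : ℕ} (h : s ≤ t) : ncr A w y m t₀ s ≤ ncr A w y m t₀ t := by
  classical
  exact card_le_card (filter_subset_filter _ (range_mono h))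

theorem crs_succ {t₀ s t : ℕ} (h : t ≤ s) (hs : Cr A w y m (t₀ + s)) :
    crs A w y m t₀ t + 1 ≤ crs A w y m t₀ (s + 1) := by
  classical
  refine le_trans (Nat.add_le_add_right (crs_mono (A := A) (w := w) (y := y) (m := m) h) 1) ?_
  unfold crs
  rw [range_add_one (n := s), filter_insert, if_pos hs, card_insert_of_notMem (by simp)]

theorem ncr_succ {t₀ s t : ℕ} (h : t ≤ s) (hn : A.New w y (t₀ + s))
    (hs : Cr A w y m (t₀ + s)) : ncr A w y m t₀ t + 1 ≤ ncr A w y m t₀ (s + 1) := by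
  classical
  refine le_trans (Nat.add_le_add_right (ncr_mono (A := A) (w := w) (y := y) (m := m) h) 1) ?_
  unfold ncr
  rw [range_add_one (n := s), filter_insert, if_pos ⟨hn, hs⟩, card_insert_of_notMem (by simp)]

/-- The state of the machine after `T` steps. -/
def St (A : OneHead D) (w y : List Bool) (m : Pool.Agent.Helper65.OH.Prm)
    (e : Pool.Agent.Helper81.Sus2.Prm) (c d a τ t₀ T t : ℕ) : Prop :=
  (∀ b, (wf m e τ c d a T).2 b < QQ m) ∧ ∃ q, (wf m e τ c d a T).1 = enc m q t ∧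
    Out A w y m (q, (wf m e τ c d a T).2) (t₀ + t)

theorem start (hCel : CEL_stmt) (hCub : CUB_stmt) (hP : Par A eA eN eW c₀ w y m)
    (ho : m.o < m.d) {c d a τ t₀ : ℕ} (hR : Rep m e c (A.conf w y t₀))
    (hV : 2 + 2 ^ m.sg * (τ + 1) ≤ 2 ^ (e.V + 1)) :
    St A w y m e c d a τ t₀ 0 0 := by
  have hcc : ∀ B j, cc m e c B j < 2 ^ (m.S + 1) := fun B j => capN_lt _ _
  refine ⟨fun b => ?_, cs m c, ?_, ?_, ?_⟩
  · show tab (2 ^ (m.S + 1)) (m.d ^ m.D) (cc m e c b) % 2 ^ m.a < QQ m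
    exact lt_of_le_of_lt (Nat.mod_le _ _) (tab_lt fun _ _ => hcc _ _)
  · show w0 m e c = _
    exact capN_eq (enc_lt hR.good.lt (Nat.zero_le τ) hV)
  · exact hR.good
  · intro z hz
    show dig (2 ^ (m.S + 1)) (tab (2 ^ (m.S + 1)) (m.d ^ m.D) (cc m e c (bz m z)) % 2 ^ m.a)
      (cz m z) = _
    have h4 := cz_lt m hP.pos_d z
    rw [dig_mod_a hP _ h4, dig_tab (fun _ _ => hcc _ _) (by rw [hP.h_D]; exact h4)]
    have h5 : cc m e c (bz m z) (cz m z) = cn m e c (cellN m.κ (co m.κ z) m.D) := by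
      unfold cc
      congr 1
      refine hCel.congr _ _ _ _ fun k hk => ?_
      exact hCub.cube m z hP.h_D hP.pos_d ho hz k (by rw [← hP.h_D]; exact hk)
    rw [h5, hR.ct z hz]
    rfl

theorem step_lt (hG : GEO_stmt) (hSl : SLC_stmt) (hP : Par A eA eN eW c₀ w y m)
    (ho : m.o < m.d) (hF : Fns A m) (hsg : m.sg ≤ e.V + 1) {c d a τ t₀ : ℕ}
    (hfit : A.Fits w y (t₀ + τ) m.S) (hbox : ∀ u ≤ t₀ + τ, InBox m.κ (A.conf w y u).h)
    (hmin : ∀ u < t₀ + τ, t₀ ≤ u → ¬A.AcceptsAt w y u)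
    (hV : 2 + 2 ^ m.sg * (τ + 1) ≤ 2 ^ (e.V + 1)) {T t : ℕ} (ht : t < τ)
    (hSt : St A w y m e c d a τ t₀ T t) (h1 : T ≤ crs A w y m t₀ t)
    (h2 : chs (wA m e τ a) (wN m e τ d a) (wW m τ) (w0 m e c) (cm m e c) T ≤
      ncr A w y m t₀ t) :
    ∃ t' ≤ τ, St A w y m e c d a τ t₀ (T + 1) t' ∧
      ((t' = τ ∧ chs (wA m e τ a) (wN m e τ d a) (wW m τ) (w0 m e c) (cm m e c) (T + 1) ≤
        ncr A w y m t₀ τ + 1) ∨
      (t' < τ ∧ T + 1 ≤ crs A w y m t₀ t' ∧
        chs (wA m e τ a) (wN m e τ d a) (wW m τ) (w0 m e c) (cm m e c) (T + 1) ≤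
          ncr A w y m t₀ t')) := by
  obtain ⟨hQ, q, hq, hO⟩ := hSt
  obtain ⟨hblk, -, hbx⟩ := hG.blk m _ _ hP.h_D hO.good
  change m.blk q = bz m (A.conf w y (t₀ + t)).h at hblk
  have hqlt : q < 2 ^ m.sg := hO.good.lt
  have hmod : q % 2 ^ m.sg = q := Nat.mod_eq_of_lt hqlt
  set B := bz m (A.conf w y (t₀ + t)).h with hB
  have hBlt : B < 2 ^ (e.V + 1) := by
    refine lt_of_lt_of_le (bz_lt hP ho hbx) ?_
    rw [hP.h_σ]
    exact Nat.pow_le_pow_right (by norm_num) hsg
  set M := (wf m e τ c d a T).2 with hM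
  have hne : eq01 (dt m (enc m q t)) τ = 0 := by
    rw [dt_enc hqlt]
    exact eq01_ne ht.ne
  have hA : wA m e τ a (enc m q t) = B := by
    unfold wA
    rw [lt_enc, ifz_ne one_ne_zero, hne, ifz_zero, dq_enc hqlt, hblk]
    exact capN_eq hBlt
  -- the inner configuration
  obtain ⟨-, -, o3⟩ := out_in hG hP ho hO
  change In A w y m B (t₀ + t) (q % 2 ^ m.sg + 2 ^ m.sg * M B) (t₀ + t) at o3
  rw [hmod] at o3
  have hz₀ : (q + 2 ^ m.sg * M B) / 2 ^ m.sg = M B := (split_lt hqlt).2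
  obtain ⟨g1, g2, g3, g4, g5⟩ := hSl A eA eN eW c₀ w y m hP ho hF B (t₀ + t)
    (q + 2 ^ m.sg * M B) (t₀ + τ) o3 (by rw [hz₀]; exact hQ _) hfit hbox
    (fun u hu hu' => hmin u hu (by omega)) (τ - t) (by omega)
  rw [hz₀] at g5
  set n := ct m B (q + 2 ^ m.sg * M B) (τ - t) with hn
  have hnle : n ≤ τ - t := ct_le _ _ _
  set z := rn m B (q + 2 ^ m.sg * M B) (τ - t) with hz
  have hwz : wz m τ (enc m q t) (M B) = z := by
    unfold wz
    rw [dq_enc hqlt, dt_enc hqlt, hblk]
  have hwc : wc m τ (enc m q t) (M B) = n := by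
    unfold wc
    rw [dq_enc hqlt, dt_enc hqlt, hblk]
  have hzlt : z % 2 ^ m.sg < 2 ^ m.sg := Nat.mod_lt _ (by positivity)
  have hzq : m.wq (z % 2 ^ m.sg) ≠ 0 := by
    rw [g1.good.wq]
    exact (num_pos _).ne'
  have hN : wN m e τ d a (enc m q t) (M B) = enc m (z % 2 ^ m.sg) (t + n) := by
    unfold wN
    rw [lt_enc, ifz_ne one_ne_zero, hne, ifz_zero, hwz, hwc, ifz_ne hzq, dt_enc hqlt]
    exact capN_eq (enc_lt hzlt (by omega) hV)
  have hza : z / 2 ^ m.sg % 2 ^ m.a = z / 2 ^ m.sg :=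
    Nat.mod_eq_of_lt (lt_of_lt_of_le g4 (QQ_le hP))
  have hW : wW m τ (enc m q t) (M B) = z / 2 ^ m.sg := by
    unfold wW
    rw [lt_enc, ifz_ne one_ne_zero, hne, ifz_zero, hwz, hza]
  have hstep : wf m e τ c d a (T + 1) =
      (enc m (z % 2 ^ m.sg) (t + n), Function.update M B (z / 2 ^ m.sg)) := by
    have h0 : wf m e τ c d a (T + 1) =
      (wN m e τ d a (wf m e τ c d a T).1 (M (wA m e τ a (wf m e τ c d a T).1)),
      Function.update M (wA m e τ a (wf m e τ c d a T).1)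
        (wW m τ (wf m e τ c d a T).1 (M (wA m e τ a (wf m e τ c d a T).1)))) := rfl
    rw [h0, hq, hA, hN, hW]
  have hchg : chg (wA m e τ a) (wN m e τ d a) (wW m τ) (w0 m e c) (cm m e c) T →
      z / 2 ^ m.sg ≠ M B := by
    intro hc he
    apply hc
    change wW m τ (wf m e τ c d a T).1 (M (wA m e τ a (wf m e τ c d a T).1)) =
      M (wA m e τ a (wf m e τ c d a T).1)
    rw [hq, hA, hW, he]
  have hSt' : St A w y m e c d a τ t₀ (T + 1) (t + n) := by
    refine ⟨fun b => ?_, z % 2 ^ m.sg, by rw [hstep], ?_⟩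
    · rw [hstep]
      show Function.update M B _ b < _
      by_cases hb : b = B
      · rw [hb, Function.update_self]
        exact g4
      · rw [Function.update_of_ne hb]
        exact hQ b
    · rw [hstep]
      have h6 := in_out hP hO.mem g1
      rw [hP.h_σ, Nat.mod_mod, hza, add_assoc] at h6
      exact h6
  have hs := chs_succ_le (A := wA m e τ a) (N := wN m e τ d a) (W := wW m τ) (q := w0 m e c)
    (M := cm m e c) T
  refine ⟨t + n, by omega, hSt', ?_⟩
  rcases Nat.lt_or_ge (t + n) τ with htr | htr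
  · right
    have hbt : bz m (A.conf w y (t₀ + t + n)).h ≠ B := by
      rcases g3 with g3 | g3
      · omega
      · exact g3
    have hn0 : n ≠ 0 := by
      intro h0
      rw [h0] at hbt
      exact hbt rfl
    obtain ⟨s, hs'⟩ : ∃ s, t + n = s + 1 := ⟨t + n - 1, by omega⟩
    have h6 : bz m (A.conf w y (t₀ + s)).h = B := g2 _ (by omega) (by omega)
    have e7 : t₀ + t + n = t₀ + s + 1 := by omega
    rw [e7] at hbt g2 g5
    have hcr : Cr A w y m (t₀ + s) := by
      refine (hG.cross m _ _ ho (hbox _ (by omega)) (hbox _ (by omega))).1 ?_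
      rw [h6]
      exact fun h7 => hbt h7.symm
    refine ⟨htr, ?_, ?_⟩
    · rw [hs']
      have := crs_succ (A := A) (w := w) (y := y) (m := m) (t₀ := t₀) (s := s) (t := t)
        (by omega) hcr
      omega
    · by_cases hc : chg (wA m e τ a) (wN m e τ d a) (wW m τ) (w0 m e c) (cm m e c) T
      · obtain ⟨v, hv1, hv2, hv3⟩ : ∃ v, t₀ + t ≤ v ∧ v < t₀ + s + 1 ∧
            (A.conf w y (v + 1)).M ≠ (A.conf w y v).M := by
          by_contra hcon
          push Not at hcon
          exact hchg hc (g5 hcon)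
        have hnew : A.New w y (t₀ + s) := by
          intro u hu huh
          rcases Nat.lt_or_ge v u with hvu | hvu
          · exfalso
            apply hbt
            rw [← huh]
            exact g2 u (by omega) (by omega)
          · exact ⟨v, hvu, by omega, hv3⟩
        have := ncr_succ (A := A) (w := w) (y := y) (m := m) (t₀ := t₀) (s := s) (t := t)
          (by omega) hnew hcr
        rw [hs']
        omega
      · rw [chs_succ_of_not hc]
        exact h2.trans (ncr_mono (by omega))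
  · left
    have h7 : t + n = τ := by omega
    refine ⟨h7, ?_⟩
    have := ncr_mono (A := A) (w := w) (y := y) (m := m) (t₀ := t₀) ht.le
    omega

/-- The final check. -/
theorem final (hCel : CEL_stmt) (hCub : CUB_stmt) (hP : Par A eA eN eW c₀ w y m)
    (ho : m.o < m.d) (hsg : m.sg ≤ e.V + 1) {c d a τ t₀ : ℕ}
    (hd : d = 0 → A.AcceptsAt w y (t₀ + τ))
    (hd' : d ≠ 0 → GoodQ m (A.conf w y (t₀ + τ)) (cs m d) ∧ (a = 0 ∨ ∃ p : Fin D → ℤ,
      InBox m.κ p ∧ a = cd m p + 1 ∧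
      cn m e d (cellN m.κ (co m.κ p) m.D) = capN m.S (num ((A.conf w y (t₀ + τ)).M p))))
    {T : ℕ} (hSt : St A w y m e c d a τ t₀ T τ) :
    (wf m e τ c d a (T + 1)).1 = 1 ∧
      ¬chg (wA m e τ a) (wN m e τ d a) (wW m τ) (w0 m e c) (cm m e c) T := by
  obtain ⟨hQ, q, hq, hO⟩ := hSt
  have hqlt : q < 2 ^ m.sg := hO.good.lt
  set M := (wf m e τ c d a T).2 with hM
  have heq : eq01 (dt m (enc m q τ)) τ = 1 := by
    rw [dt_enc hqlt]
    exact eq01_of rfl
  have hmem := mem_lt (m := m) (e := e) c τ d a T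
  have hW : ∀ b, wW m τ (enc m q τ) (M b) = M b := by
    intro b
    unfold wW
    rw [lt_enc, ifz_ne one_ne_zero, heq, ifz_ne one_ne_zero]
    exact Nat.mod_eq_of_lt (hmem b)
  have hA : wA m e τ a (enc m q τ) = capN e.V (m.blk (2 ^ (m.S + 1) * (a - 1))) := by
    unfold wA
    rw [lt_enc, ifz_ne one_ne_zero, heq, ifz_ne one_ne_zero]
  have h0 : (wf m e τ c d a (T + 1)).1 =
      wN m e τ d a (wf m e τ c d a T).1 (M (wA m e τ a (wf m e τ c d a T).1)) := rfl
  refine ⟨?_, ?_⟩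
  · rw [h0, hq, hA]
    set v := M (capN e.V (m.blk (2 ^ (m.S + 1) * (a - 1)))) with hv
    unfold wN
    rw [lt_enc, ifz_ne one_ne_zero, heq, ifz_ne one_ne_zero]
    have h1 : wF m e d a (enc m q τ) v = 1 := by
      unfold wF
      rw [dq_enc hqlt]
      rcases Nat.eq_zero_or_pos d with h2 | h2
      · rw [h2, ifz_zero, hO.good.wq]
        exact (accN_num _).2 (hd h2)
      · obtain ⟨h3, h4⟩ := hd' h2.ne'
        have h5 : q = cs m d := hCub.uniq m _ _ _ hP.h_D hO.good h3
        rw [ifz_ne h2.ne', eq01_of h5, one_mul]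
        rcases h4 with h4 | ⟨p, hp, hap, hcp⟩
        · rw [h4, ifz_zero]
        · have ha0 : a ≠ 0 := by omega
          have ha1 : a - 1 = cd m p := by omega
          obtain ⟨k1, k2, -, k4⟩ := hCub.cell m p hP.h_D hp
          rw [ifz_ne ha0, ha1, k2]
          apply eq01_of
          have hb : capN e.V (m.blk (2 ^ (m.S + 1) * (a - 1))) = bz m p := by
            rw [ha1, k1]
            refine capN_eq (lt_of_lt_of_le (bz_lt hP ho hp) ?_)
            rw [hP.h_σ]
            exact Nat.pow_le_pow_right (by norm_num) hsg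
          have h6 : cellN m.κ (dig (2 ^ m.κ) (cd m p)) m.D = cellN m.κ (co m.κ p) m.D :=
            hCel.congr _ _ _ _ fun k hk => k4 k (by rw [← hP.h_D]; exact hk)
          rw [hv, hb, h6, hcp]
          exact hO.mem p hp
    rw [h1]
    exact capN_eq (Nat.one_lt_two_pow (by omega))
  · intro hc
    apply hc
    change wW m τ (wf m e τ c d a T).1 (M (wA m e τ a (wf m e τ c d a T).1)) =
      M (wA m e τ a (wf m e τ c d a T).1)
    rw [hq, hW]

/-- OHS-CMP. -/
theorem cmp (hG : GEO_stmt) (hCel : CEL_stmt) (hCub : CUB_stmt) (hSl : SLC_stmt) : CMP_stmt := by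
  intro D A eA eN eW c₀ w y m e hP ho hF hsg c d a τ t₀ hR hfit hbox hmin hV hd hd'
  have hab := absorb (m := m) (e := e) c τ d a
  have main : ∀ T, (∃ t < τ, St A w y m e c d a τ t₀ T t ∧ T ≤ crs A w y m t₀ t ∧
      chs (wA m e τ a) (wN m e τ d a) (wW m τ) (w0 m e c) (cm m e c) T ≤
        ncr A w y m t₀ t) ∨
      ∃ T₁ ≤ T, St A w y m e c d a τ t₀ T₁ τ ∧
        chs (wA m e τ a) (wN m e τ d a) (wW m τ) (w0 m e c) (cm m e c) T₁ ≤
          ncr A w y m t₀ τ + 1 := by
    intro T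
    induction T with
    | zero =>
      have h0 : chs (wA m e τ a) (wN m e τ d a) (wW m τ) (w0 m e c) (cm m e c) 0 = 0 := by
        classical
        simp [chs]
      have h1 : St A w y m e c d a τ t₀ 0 0 := start hCel hCub hP ho hR hV
      rcases Nat.eq_zero_or_pos τ with h | h
      · right
        refine ⟨0, le_rfl, ?_, ?_⟩
        · subst h
          exact h1
        · rw [h0]
          exact Nat.zero_le _
      · left
        refine ⟨0, h, h1, Nat.zero_le _, ?_⟩
        rw [h0]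
        exact Nat.zero_le _
    | succ T ih =>
      rcases ih with ⟨t, ht, h1, h2, h3⟩ | ⟨T₁, hT₁, h1, h2⟩
      · obtain ⟨t', ht', k1, k2⟩ := step_lt hG hSl hP ho hF hsg hfit hbox hmin hV ht h1 h2 h3
        rcases k2 with ⟨k2, k3⟩ | ⟨k2, k3, k4⟩
        · right
          subst k2
          exact ⟨T + 1, le_rfl, k1, k3⟩
        · left
          exact ⟨t', k2, k1, k3, k4⟩
      · right
        exact ⟨T₁, by omega, h1, h2⟩
  obtain ⟨T₁, hT₁, h1, h2⟩ : ∃ T₁ ≤ crs A w y m t₀ τ + 1, St A w y m e c d a τ t₀ T₁ τ ∧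
        chs (wA m e τ a) (wN m e τ d a) (wW m τ) (w0 m e c) (cm m e c) T₁ ≤
          ncr A w y m t₀ τ + 1 := by
    rcases main (crs A w y m t₀ τ + 1) with ⟨t, ht, -, h2, -⟩ | h
    · exfalso
      have := crs_mono (A := A) (w := w) (y := y) (m := m) (t₀ := t₀) ht.le
      omega
    · exact h
  obtain ⟨h3, h4⟩ := final hCel hCub hP ho hsg hd hd' h1
  have hkeep := keep hab (t := T₁ + 1) h3
  refine ⟨hab, ?_, ?_⟩
  · have h5 := hkeep (crs A w y m t₀ τ + 2) (by omega)
    change wf m e τ c d a (crs A w y m t₀ τ + 2) = wf m e τ c d a (T₁ + 1) at h5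
    rw [h5]
    exact h3
  · have h6 : ∀ T, T₁ + 1 ≤ T →
        chs (wA m e τ a) (wN m e τ d a) (wW m τ) (w0 m e c) (cm m e c) T =
          chs (wA m e τ a) (wN m e τ d a) (wW m τ) (w0 m e c) (cm m e c) T₁ := by
      intro T hT
      induction T, hT using Nat.le_induction with
      | base => exact chs_succ_of_not h4
      | succ T hT ih =>
        rw [chs_succ_of_not ?_, ih]
        intro hc
        have h7 : wf m e τ c d a (T + 1) = wf m e τ c d a T := by
          have h8 := hkeep T hT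
          have h9 := hkeep (T + 1) (by omega)
          exact h9.trans h8.symm
        apply hc
        have h8 := congrFun (congrArg Prod.snd h7) (wA m e τ a (wf m e τ c d a T).1)
        exact (Function.update_self (wA m e τ a (wf m e τ c d a T).1) _
          (wf m e τ c d a T).2).symm.trans h8
    rw [h6 _ (by omega)]
    exact h2

end Pool.Agent.Helper90.OHS
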